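import Pool.Agent.Y174.SD.Stm

/-! SD-CRAMER: resultant type denominators. -/

set_option autoImplicit false

open MvPolynomial Pool.Agent.Y174.T Pool.Agent.Y174.SD

namespace Pool.Agent.Y638.SD

section

variable {R : Type*} [CommRing R] {n m N : ℕ}

theorem fm_hom (c : Fin n × Ex n m → R) (j : Fin n) : (fm c j).IsHomogeneous m := by
  unfold fm
  exact IsHomogeneous.sum _ _ _ fun d _ => isHomogeneous_monomial _ d.2

theorem coeff_fm (c : Fin n × Ex n m → R) (j : Fin n) (d : Ex n m) :
    coeff d.1 (fm c j) = c (j, d) := by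
  classical
  unfold fm
  rw [coeff_sum, Finset.sum_eq_single d]
  · rw [coeff_monomial, if_pos rfl]
  · intro b _ hb
    rw [coeff_monomial, if_neg fun h => hb (Subtype.ext h)]
  · intro h
    exact absurd (Finset.mem_univ _) h

theorem map_fm {S : Type*} [CommRing S] (f : R →+* S) (c : Fin n × Ex n m → R) (j : Fin n) :
    map f (fm c j) = fm (f ∘ c) j := by
  unfold fm
  rw [map_sum]
  exact Finset.sum_congr rfl fun d _ => map_monomial _ _ _

/-- a form is the sum of its terms -/
theorem form_eq_sum {p : MvPolynomial (Fin n) R} (hp : p.IsHomogeneous N) :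
    p = ∑ β : Ex n N, monomial β.1 (coeff β.1 p) := by
  classical
  ext d
  rw [coeff_sum]
  by_cases hd : d.degree = N
  · rw [Finset.sum_eq_single ⟨d, hd⟩]
    · rw [coeff_monomial, if_pos rfl]
    · intro b _ hb
      rw [coeff_monomial, if_neg fun h => hb (Subtype.ext h)]
    · intro h
      exact absurd (Finset.mem_univ _) h
  · rw [hp.coeff_eq_zero hd, Finset.sum_eq_zero]
    intro b _
    rw [coeff_monomial, if_neg]
    rintro rfl
    exact hd b.2

variable (n m N) in
/-- the columns -/
abbrev Col : Type := Fin n × {γ : Fin n →₀ ℕ // γ.degree + m = N}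

/-- the form which belongs to a column -/
noncomputable def colForm (c : Fin n × Ex n m → R) (a : Col n m N) : MvPolynomial (Fin n) R :=
  monomial a.2.1 1 * fm c a.1

theorem colForm_hom (c : Fin n × Ex n m → R) (a : Col n m N) : (colForm c a).IsHomogeneous N := by
  have h := (isHomogeneous_monomial (1 : R) (rfl : a.2.1.degree = a.2.1.degree)).mul
    (fm_hom c a.1)
  rw [a.2.2] at h
  exact h

/-- the column -/
noncomputable def col (c : Fin n × Ex n m → R) (a : Col n m N) (β : Ex n N) : R :=
  coeff β.1 (colForm c a)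

theorem map_col {S : Type*} [CommRing S] (f : R →+* S) (c : Fin n × Ex n m → R) (a : Col n m N)
    (β : Ex n N) : f (col c a β) = col (f ∘ c) a β := by
  unfold col colForm
  rw [← coeff_map, map_mul, map_fm, map_monomial, map_one]

end

variable {k K : Type} [Field k] [Field K] [Algebra k K] {n m N : ℕ}

theorem col_span (c : Fin n × Ex n m → K)
    (h : ∀ β : Fin n →₀ ℕ, β.degree = N → monomial β 1 ∈ Ideal.span (Set.range (fm c))) :
    Submodule.span K (Set.range (col c : Col n m N → Ex n N → K)) = ⊤ := by
  classical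
  rw [eq_top_iff]
  have h1 : ∀ β : Ex n N, Pi.single β (1 : K) ∈
      Submodule.span K (Set.range (col c : Col n m N → Ex n N → K)) := by
    intro β
    obtain ⟨g, hg⟩ := (Ideal.mem_span_range_iff_exists_fun).1 (h β.1 β.2)
    have h2 : (Pi.single β (1 : K) : Ex n N → K) = ∑ j, ∑ γ ∈ (g j).support,
        coeff γ (g j) • (fun β' : Ex n N => coeff β'.1 (monomial γ 1 * fm c j)) := by
      funext β'
      rw [Finset.sum_apply]
      simp only [Finset.sum_apply, Pi.smul_apply, smul_eq_mul]
      have h3 := congrArg (coeff β'.1) hg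
      rw [coeff_sum, coeff_monomial] at h3
      have h4 : (Pi.single β (1 : K) : Ex n N → K) β' = if β.1 = β'.1 then 1 else 0 := by
        rw [Pi.single_apply]
        by_cases hb : β' = β
        · rw [if_pos hb, if_pos (by rw [hb])]
        · rw [if_neg hb, if_neg fun h => hb (Subtype.ext h.symm)]
      rw [h4, ← h3]
      refine Finset.sum_congr rfl fun j _ => ?_
      conv_lhs => rw [← support_sum_monomial_coeff (g j)]
      rw [Finset.sum_mul, coeff_sum]
      refine Finset.sum_congr rfl fun γ _ => ?_
      rw [← coeff_C_mul, ← mul_assoc, C_mul_monomial, mul_one]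
    rw [h2]
    refine Submodule.sum_mem _ fun j _ => Submodule.sum_mem _ fun γ _ => ?_
    by_cases hγ : γ.degree + m = N
    · exact Submodule.smul_mem _ _ (Submodule.subset_span ⟨(j, ⟨γ, hγ⟩), rfl⟩)
    · have h3 : (fun β' : Ex n N => coeff β'.1 (monomial γ 1 * fm c j)) = 0 := by
        funext β'
        have h4 := (isHomogeneous_monomial (1 : K) (rfl : γ.degree = γ.degree)).mul (fm_hom c j)
        rw [Pi.zero_apply]
        apply h4.coeff_eq_zero
        rw [β'.2]
        exact fun h => hγ h.symm
      rw [h3, smul_zero]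
      exact Submodule.zero_mem _
  intro v _
  have h5 : v = ∑ β, v β • (Pi.single β (1 : K) : Ex n N → K) := by
    funext β'
    rw [Finset.sum_apply, Finset.sum_eq_single β']
    · simp
    · intro b _ hb
      simp [Pi.single_apply, Ne.symm hb]
    · intro h
      exact absurd (Finset.mem_univ _) h
  rw [h5]
  exact Submodule.sum_mem _ fun β _ => Submodule.smul_mem _ _ (h1 β)

/-- independent columns -/
theorem exists_cols (c : Fin n × Ex n m → K)
    (h : ∀ β : Fin n →₀ ℕ, β.degree = N → monomial β 1 ∈ Ideal.span (Set.range (fm c))) :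
    ∃ f : Ex n N → Col n m N, LinearIndependent K (fun β => col c (f β)) := by
  classical
  obtain ⟨b, hb1, hb2, hb3⟩ := exists_linearIndependent K
    (Set.range (col c : Col n m N → Ex n N → K))
  rw [col_span c h] at hb2
  have B : Module.Basis b K (Ex n N → K) := Module.Basis.mk hb3 (by
    rw [Subtype.range_coe_subtype, Set.setOf_mem_eq, hb2])
  have e : Ex n N ≃ b := (Pi.basisFun K (Ex n N)).indexEquiv B
  choose g hg using fun x : b => hb1 x.2
  refine ⟨fun β => g (e β), ?_⟩
  have h1 : (fun β => col c (g (e β))) = (fun x : b => (x : Ex n N → K)) ∘ e := by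
    funext β
    exact hg (e β)
  rw [h1]
  exact hb3.comp e e.injective

theorem t_CRAMER : S_CRAMER := by
  intro k K _ _ _ n m N c h
  classical
  obtain ⟨f, hf⟩ := exists_cols c h
  obtain ⟨M, hM⟩ : ∃ M : Matrix (Ex n N) (Ex n N) (Cf k n m), M = Matrix.of fun a β =>
    col (fun p => (X p : Cf k n m)) (f a) β := ⟨_, rfl⟩
  refine ⟨M.det, ?_, ?_⟩
  · intro β hβ
    have h1 : ∀ a : Ex n N, colForm (fun p => (X p : Cf k n m)) (f a) =
        ∑ β' : Ex n N, monomial β'.1 (M a β') := by
      intro a
      rw [hM]
      exact form_eq_sum (colForm_hom _ _)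
    have h2 : C M.det * monomial β 1 = ∑ a : Ex n N, C (M.adjugate ⟨β, hβ⟩ a) *
        colForm (fun p => (X p : Cf k n m)) (f a) := by
      have h3 := congrFun (congrFun (Matrix.adjugate_mul M) ⟨β, hβ⟩)
      have h4 : ∑ a : Ex n N, C (M.adjugate ⟨β, hβ⟩ a) *
          colForm (fun p => (X p : Cf k n m)) (f a) =
          ∑ β' : Ex n N, monomial β'.1 ((M.adjugate * M) ⟨β, hβ⟩ β') := by
        simp only [h1, Finset.mul_sum, C_mul_monomial]
        rw [Finset.sum_comm]
        refine Finset.sum_congr rfl fun β' _ => ?_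
        rw [Matrix.mul_apply, map_sum]
      rw [h4, Finset.sum_eq_single ⟨β, hβ⟩]
      · rw [h3, Matrix.smul_apply, Matrix.one_apply_eq, smul_eq_mul, mul_one, C_mul_monomial,
          mul_one]
      · intro b _ hb
        rw [h3, Matrix.smul_apply, Matrix.one_apply_ne (Ne.symm hb), smul_zero, map_zero]
      · intro h
        exact absurd (Finset.mem_univ _) h
    rw [h2]
    refine Ideal.sum_mem _ fun a _ => Ideal.mul_mem_left _ _ ?_
    unfold colForm
    exact Ideal.mul_mem_left _ _ (Ideal.subset_span ⟨(f a).1, rfl⟩)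
  · have h1 : aeval c M.det = (Matrix.of fun a β => col c (f a) β).det := by
      have h2 := RingHom.map_det (aeval c : Cf k n m →ₐ[k] K).toRingHom M
      refine h2.trans ?_
      congr 1
      ext a β
      rw [hM]
      change (aeval c : Cf k n m →ₐ[k] K).toRingHom (col (fun p => (X p : Cf k n m)) (f a) β) = _
      rw [map_col]
      change col _ (f a) β = col c (f a) β
      congr 1
      funext p
      exact aeval_X _ _
    rw [h1]
    have h3 : LinearIndependent K (Matrix.of fun a β => col c (f a) β).row := hf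
    rw [Matrix.linearIndependent_rows_iff_isUnit] at h3
    exact ((Matrix.isUnit_iff_isUnit_det _).1 h3).ne_zero

end Pool.Agent.Y638.SD
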