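import Pool.Agent.Y638.SD.Cramer

/-! SD-GCD: the semi-invariant greatest common divisor of the denominators. -/

set_option autoImplicit false

open MvPolynomial Pool.Agent.Y174.T Pool.Agent.Y174.SD

namespace Pool.Agent.Y638.SD

/-! ### Substitutions -/

section

variable {R : Type*} [CommRing R] {n m N : ℕ}

theorem lsub_mul (A B : Matrix (Fin n) (Fin n) R) (p : MvPolynomial (Fin n) R) :
    lsub (A * B) p = lsub A (lsub B p) := by
  induction p using MvPolynomial.induction_on with
  | C a => simp [lsub]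
  | add p q hp hq => rw [map_add, map_add, map_add, hp, hq]
  | mul_X p i hp =>
    rw [map_mul, map_mul, map_mul, hp]
    congr 1
    simp only [lsub, aeval_X, map_sum, map_mul, Matrix.mul_apply, Finset.sum_mul, aeval_C,
      algebraMap_eq, Finset.mul_sum]
    rw [Finset.sum_comm]
    refine Finset.sum_congr rfl fun j _ => Finset.sum_congr rfl fun l _ => ?_
    ring

theorem lsub_one (p : MvPolynomial (Fin n) R) : lsub (1 : Matrix (Fin n) (Fin n) R) p = p := by
  induction p using MvPolynomial.induction_on with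
  | C a => simp [lsub]
  | add p q hp hq => rw [map_add, hp, hq]
  | mul_X p i hp =>
    rw [map_mul, hp]
    congr 1
    simp [lsub, Matrix.one_apply]

theorem lsub_hom (A : Matrix (Fin n) (Fin n) R) {p : MvPolynomial (Fin n) R}
    (hp : p.IsHomogeneous m) : (lsub A p).IsHomogeneous m := by
  have h1 := hp.aeval (fun c => ∑ i, C (A i c) * X i : Fin n → MvPolynomial (Fin n) R) (n := 1)
    (fun c => by
      refine IsHomogeneous.sum _ _ _ fun i _ => ?_
      simpa using (isHomogeneous_C (Fin n) (A i c)).mul (isHomogeneous_X R i))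
  rw [one_mul] at h1
  exact h1

theorem map_lsub {S : Type*} [CommRing S] (f : R →+* S) (A : Matrix (Fin n) (Fin n) R)
    (p : MvPolynomial (Fin n) R) : map f (lsub A p) = lsub (A.map f) (map f p) := by
  induction p using MvPolynomial.induction_on with
  | C a => simp [lsub]
  | add p q hp hq => rw [map_add, map_add, map_add, map_add, hp, hq]
  | mul_X p i hp =>
    rw [map_mul, map_mul, map_mul, map_mul, hp]
    congr 1
    simp [lsub, Matrix.map_apply]

theorem fm_trans (A : Matrix (Fin n) (Fin n) R) (c : Fin n × Ex n m → R) (j : Fin n) :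
    fm (trans A c) j = lsub A (fm c j) := by
  rw [form_eq_sum (lsub_hom A (fm_hom c j))]
  rfl

theorem map_trans {S : Type*} [CommRing S] (f : R →+* S) (A : Matrix (Fin n) (Fin n) R)
    (c : Fin n × Ex n m → R) (p : Fin n × Ex n m) :
    f (trans A c p) = trans (A.map f) (f ∘ c) p := by
  unfold Pool.Agent.Y174.SD.trans
  rw [← coeff_map, map_lsub, map_fm]

theorem trans_trans (A B : Matrix (Fin n) (Fin n) R) (c : Fin n × Ex n m → R) :
    trans A (trans B c) = trans (A * B) c := by
  funext p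
  unfold Pool.Agent.Y174.SD.trans
  rw [lsub_mul]
  congr 2
  exact fm_trans B c p.1

theorem trans_one (c : Fin n × Ex n m → R) : trans 1 c = c := by
  funext p
  unfold Pool.Agent.Y174.SD.trans
  rw [lsub_one, coeff_fm]

end

/-! ### The action -/

section

variable {k : Type*} [Field k] {n m N : ℕ}

theorem act_X (g : Matrix (Fin n) (Fin n) k) (p : Fin n × Ex n m) :
    act g (X p : Cf k n m) = trans (g.map C) (fun p => (X p : Cf k n m)) p := by
  unfold act
  rw [aeval_X]

theorem act_C (g : Matrix (Fin n) (Fin n) k) (a : k) : act g (C a : Cf k n m) = C a := by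
  unfold act
  rw [aeval_C]
  rfl

theorem map_act_gen (g : Matrix (Fin n) (Fin n) k) (j : Fin n) :
    map (act g : Cf k n m →ₐ[k] Cf k n m).toRingHom (gen k n m j) =
      lsub (g.map C) (gen k n m j) := by
  unfold gen
  rw [map_fm, ← fm_trans]
  congr 1
  funext p
  exact act_X g p

theorem act_act (g h : Matrix (Fin n) (Fin n) k) (Q : Cf k n m) :
    act g (act h Q) = act (h * g) Q := by
  have key : (act g : Cf k n m →ₐ[k] Cf k n m).comp (act h) = act (h * g) := by
    apply MvPolynomial.algHom_ext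
    intro p
    rw [AlgHom.comp_apply, act_X, act_X]
    have h1 := map_trans (act g : Cf k n m →ₐ[k] Cf k n m).toRingHom (h.map C)
      (fun p => (X p : Cf k n m)) p
    refine h1.trans ?_
    have h2 : (h.map (C : k →+* Cf k n m)).map (act g : Cf k n m →ₐ[k] Cf k n m).toRingHom =
        h.map C := by
      ext i j
      rw [Matrix.map_apply, Matrix.map_apply]
      exact congrArg _ (act_C g _)
    have h3 : (act g : Cf k n m →ₐ[k] Cf k n m).toRingHom ∘ (fun p => (X p : Cf k n m)) =
        trans (g.map C) (fun p => (X p : Cf k n m)) := by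
      funext p
      exact act_X g p
    rw [h2, h3, trans_trans, ← Matrix.map_mul]
  rw [← key]
  rfl

theorem act_one (Q : Cf k n m) : act (1 : Matrix (Fin n) (Fin n) k) Q = Q := by
  have key : (act 1 : Cf k n m →ₐ[k] Cf k n m) = AlgHom.id k _ := by
    apply MvPolynomial.algHom_ext
    intro p
    rw [act_X, Matrix.map_one _ (map_zero _) (map_one _), trans_one]
    rfl
  rw [key]
  rfl

theorem eval_act (g : Matrix (Fin n) (Fin n) k) (c : Fin n × Ex n m → k) (Q : Cf k n m) :
    eval c (act g Q) = eval (trans g c) Q := by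
  have key : (aeval c : Cf k n m →ₐ[k] k).comp (act g) = aeval (trans g c) := by
    apply MvPolynomial.algHom_ext
    intro p
    rw [AlgHom.comp_apply, act_X, aeval_X]
    have h1 := map_trans (aeval c : Cf k n m →ₐ[k] k).toRingHom (g.map C)
      (fun p => (X p : Cf k n m)) p
    refine h1.trans ?_
    have h2 : (g.map (C : k →+* Cf k n m)).map (aeval c : Cf k n m →ₐ[k] k).toRingHom = g := by
      ext i j
      rw [Matrix.map_apply, Matrix.map_apply]
      exact (aeval_C c _)
    have h3 : (aeval c : Cf k n m →ₐ[k] k).toRingHom ∘ (fun p => (X p : Cf k n m)) = c := by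
      funext p
      exact aeval_X c p
    rw [h2, h3]
  have h4 := congrArg (fun f => f Q) key
  simp only [AlgHom.comp_apply] at h4
  rw [← coe_aeval_eq_eval, ← coe_aeval_eq_eval]
  exact h4

theorem den_act {D : Cf k n m} (hD : Den k n m N D) (g : Matrix (Fin n) (Fin n) k)
    (hg : g.det ≠ 0) : Den k n m N (act g D) := by
  have hu : IsUnit g.det := isUnit_iff_ne_zero.2 hg
  obtain ⟨I, hI⟩ : ∃ I, I = Ideal.span (Set.range (gen k n m)) := ⟨_, rfl⟩
  have hinv : ∀ p : MvPolynomial (Fin n) (Cf k n m),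
      lsub ((g⁻¹).map C) (lsub (g.map C) p) = p := by
    intro p
    rw [← lsub_mul, ← Matrix.map_mul, Matrix.nonsing_inv_mul g hu,
      Matrix.map_one _ (map_zero _) (map_one _), lsub_one]
  obtain ⟨Φ, hΦ⟩ : ∃ Φ : MvPolynomial (Fin n) (Cf k n m) →+* MvPolynomial (Fin n) (Cf k n m),
      Φ = (lsub ((g⁻¹).map C) : MvPolynomial (Fin n) (Cf k n m) →ₐ[Cf k n m] _).toRingHom.comp
        (map (act g : Cf k n m →ₐ[k] Cf k n m).toRingHom) := ⟨_, rfl⟩
  have hΦa : ∀ p, Φ p = lsub ((g⁻¹).map C) (map (act g : Cf k n m →ₐ[k] Cf k n m).toRingHom p) := by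
    intro p
    rw [hΦ]
    rfl
  have hΦI : ∀ p ∈ I, Φ p ∈ I := by
    intro p hp
    have h1 : Ideal.map Φ I ≤ I := by
      rw [hI, Ideal.map_span, Ideal.span_le]
      rintro _ ⟨_, ⟨j, rfl⟩, rfl⟩
      rw [hΦa, map_act_gen, hinv]
      exact Ideal.subset_span ⟨j, rfl⟩
    exact h1 (Ideal.mem_map_of_mem Φ hp)
  have h1 : ∀ β : Fin n →₀ ℕ, β.degree = N →
      C (act g D) * lsub ((g⁻¹).map C) (monomial β 1) ∈ I := by
    intro β hβ
    have h2 := hΦI _ (by rw [hI]; exact hD β hβ)
    rw [map_mul, hΦa, hΦa, map_C, map_monomial, map_one] at h2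
    have h3 : lsub ((g⁻¹).map C) (C ((act g : Cf k n m →ₐ[k] Cf k n m).toRingHom D)) =
        C (act g D) := by
      unfold lsub
      rw [aeval_C]
      rfl
    rw [h3] at h2
    exact h2
  have h2 : ∀ p : MvPolynomial (Fin n) (Cf k n m), p.IsHomogeneous N →
      C (act g D) * lsub ((g⁻¹).map C) p ∈ I := by
    intro p hp
    rw [form_eq_sum hp, map_sum, Finset.mul_sum]
    refine Ideal.sum_mem _ fun β _ => ?_
    have h3 : (monomial β.1 (coeff β.1 p) : MvPolynomial (Fin n) (Cf k n m)) =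
        C (coeff β.1 p) * monomial β.1 1 := by
      rw [C_mul_monomial, mul_one]
    rw [h3, map_mul]
    have h4 : lsub ((g⁻¹).map C) (C (coeff β.1 p) : MvPolynomial (Fin n) (Cf k n m)) =
        C (coeff β.1 p) := by
      unfold lsub
      rw [aeval_C]
      rfl
    rw [h4, mul_left_comm]
    exact Ideal.mul_mem_left _ _ (h1 β.1 β.2)
  intro β hβ
  rw [← hI]
  have h3 := h2 (lsub (g.map C) (monomial β 1)) (lsub_hom _ (isHomogeneous_monomial _ hβ))
  rw [hinv] at h3
  exact h3

end

/-! ### Greatest common divisors -/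

theorem exists_gcd {R : Type*} [CommRing R] [IsDomain R] [UniqueFactorizationMonoid R]
    (T : Set R) (hT : ∃ D ∈ T, D ≠ 0) :
    ∃ r : R, r ≠ 0 ∧ (∀ D ∈ T, r ∣ D) ∧ ∀ e, (∀ D ∈ T, e ∣ D) → e ∣ r := by
  classical
  let _ : GCDMonoid R := UniqueFactorizationMonoid.toGCDMonoid R
  obtain ⟨D0, hD0, hne⟩ := hT
  obtain ⟨q, ⟨r, hr, hrq⟩, hmin⟩ := (wellFounded_dvdNotUnit (α := R)).has_min
    {q | ∃ e, (∀ D ∈ T, e ∣ D) ∧ D0 = e * q} ⟨D0, 1, fun D _ => one_dvd D, (one_mul D0).symm⟩
  have hr0 : r ≠ 0 := by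
    rintro rfl
    rw [zero_mul] at hrq
    exact hne hrq
  refine ⟨r, hr0, hr, fun e he => ?_⟩
  have h1 : ∀ D ∈ T, lcm r e ∣ D := fun D hD => lcm_dvd (hr D hD) (he D hD)
  obtain ⟨q', hq'⟩ := h1 D0 hD0
  obtain ⟨u, hu⟩ := dvd_lcm_left r e
  have h2 : q = q' * u := by
    apply mul_left_cancel₀ hr0
    rw [← hrq, hq', hu]
    ring
  have h3 : IsUnit u := by
    by_contra hcon
    refine hmin q' ⟨lcm r e, h1, hq'⟩ ⟨?_, u, hcon, h2⟩
    rintro rfl
    rw [mul_zero] at hq'
    exact hne hq'
  have h4 : lcm r e ∣ r := by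
    rw [hu]
    exact (associated_mul_unit_left r u h3).dvd
  exact (dvd_lcm_right r e).trans h4

theorem t_GCD : S_CHAR → S_GCD := by
  intro hchar k _ _ n m N hex
  classical
  obtain ⟨r, hr0, hr1, hr2⟩ := exists_gcd {D : Cf k n m | Den k n m N D} hex
  -- the action on `r`
  have hinv : ∀ g : Matrix (Fin n) (Fin n) k, g.det ≠ 0 → ∀ Q : Cf k n m,
      act g (act g⁻¹ Q) = Q := by
    intro g hg Q
    rw [act_act, Matrix.nonsing_inv_mul g (isUnit_iff_ne_zero.2 hg), act_one]
  have hdet : ∀ g : Matrix (Fin n) (Fin n) k, g.det ≠ 0 → (g⁻¹).det ≠ 0 := by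
    intro g hg
    rw [Matrix.det_nonsing_inv]
    rw [Ring.inverse_eq_inv']
    exact inv_ne_zero hg
  have hdvd : ∀ g : Matrix (Fin n) (Fin n) k, g.det ≠ 0 → act g r ∣ r := by
    intro g hg
    apply hr2
    intro D hD
    have h1 := hr1 _ (den_act hD g⁻¹ (hdet g hg))
    have h2 := map_dvd (act g : Cf k n m →ₐ[k] Cf k n m) h1
    rw [hinv g hg] at h2
    exact h2
  have hass : ∀ g : Matrix (Fin n) (Fin n) k, g.det ≠ 0 → ∃ a : k, a ≠ 0 ∧
      act g r = C a * r := by
    intro g hg
    have h1 : r ∣ act g r := by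
      have h2 := map_dvd (act g : Cf k n m →ₐ[k] Cf k n m) (hdvd g⁻¹ (hdet g hg))
      rw [hinv g hg] at h2
      exact h2
    obtain ⟨u, hu⟩ := associated_of_dvd_dvd h1 (hdvd g hg)
    obtain ⟨a, ha, hau⟩ := (MvPolynomial.isUnit_iff_eq_C_of_isReduced).1 u.isUnit
    refine ⟨a, ha.ne_zero, ?_⟩
    rw [← hu, hau, mul_comm]
  choose! χ hχ0 hχ using hass
  obtain ⟨c0, hc0⟩ : ∃ c0 : Fin n × Ex n m → k, eval c0 r ≠ 0 := by
    by_contra hcon
    push Not at hcon
    apply hr0
    apply MvPolynomial.funext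
    intro c
    rw [hcon c, map_zero]
  obtain ⟨F, hF⟩ : ∃ F : MvPolynomial (Fin n × Fin n) k, F = C (eval c0 r)⁻¹ *
      aeval (trans (Matrix.of fun i j => (X (i, j) : MvPolynomial (Fin n × Fin n) k))
        (fun p => C (c0 p))) r := ⟨_, rfl⟩
  have hFe : ∀ g : Matrix (Fin n) (Fin n) k, eval (fun p => g p.1 p.2) F =
      (eval c0 r)⁻¹ * eval (trans g c0) r := by
    intro g
    rw [hF, map_mul, eval_C]
    congr 1
    have key : ((aeval (fun p : Fin n × Fin n => g p.1 p.2)) :
        MvPolynomial (Fin n × Fin n) k →ₐ[k] k).comp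
        (aeval (trans (Matrix.of fun i j => (X (i, j) : MvPolynomial (Fin n × Fin n) k))
          (fun p => C (c0 p)) : Fin n × Ex n m → MvPolynomial (Fin n × Fin n) k)) =
        (aeval (trans g c0) : Cf k n m →ₐ[k] k) := by
      apply MvPolynomial.algHom_ext
      intro p
      rw [AlgHom.comp_apply, aeval_X, aeval_X]
      have h1 := map_trans ((aeval (fun p : Fin n × Fin n => g p.1 p.2)) :
        MvPolynomial (Fin n × Fin n) k →ₐ[k] k).toRingHom
        (Matrix.of fun i j => (X (i, j) : MvPolynomial (Fin n × Fin n) k))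
        (fun p => C (c0 p)) p
      refine h1.trans ?_
      congr 1
      · ext i j
        rw [Matrix.map_apply, Matrix.of_apply]
        exact aeval_X _ _
      · funext p
        exact aeval_C _ _
    have h4 := congrArg (fun f => f r) key
    simp only [AlgHom.comp_apply] at h4
    rw [← coe_aeval_eq_eval, ← coe_aeval_eq_eval]
    exact h4
  have hFχ : ∀ g : Matrix (Fin n) (Fin n) k, g.det ≠ 0 → eval (fun p => g p.1 p.2) F = χ g := by
    intro g hg
    rw [hFe, ← eval_act, hχ g hg, map_mul, eval_C]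
    field_simp
  obtain ⟨w, hw⟩ := hchar k n F (by
    intro g h hg hh
    have hgh : (g * h).det ≠ 0 := by
      rw [Matrix.det_mul]
      exact mul_ne_zero hg hh
    rw [hFχ g hg, hFχ h hh, hFχ _ hgh]
    have h1 : act (g * h) r = C (χ g * χ h) * r := by
      rw [← act_act, hχ g hg, map_mul, act_C, hχ h hh, C_mul, mul_assoc]
    rw [hχ _ hgh] at h1
    have h2 := mul_right_cancel₀ hr0 h1
    exact C_injective _ _ h2) (by
    intro g hg
    rw [hFχ g hg]
    exact hχ0 g hg)
  refine ⟨r, w, hr0, ?_, hr1, fun p _ hp => hr2 p hp⟩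
  intro g hg
  rw [hχ g hg, ← hFχ g hg, hw]

end Pool.Agent.Y638.SD
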